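import Pool.Agent.H502.BkFinal
set_option autoImplicit false

/-!
# Finite 0-simple semigroups over `V` are completely solvable

For every pseudovariety `V` of groups with decidable universal theory, all classes obtained from the
class `ZSO V` of finite 0-simple semigroups over groups in `V` by composites of the operators `H`,
`S`, `P` are decidable from multiplication tables.
-/

namespace Pool.Agent.Results.MP_152bd8_lc.CompletelySolvable

open Pool.Agent.H502.Bk

/-- For every pseudovariety of groups with decidable universal theory the class of finite 0-simple
semigroups over groups in `V` is completely solvable: `K(Z_V)` is decidable for every composite `K`
of the operators `H`, `S`, `P`. -/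
theorem result (V : PV) (hV : V.DecUniv) (l : List Op) : DecClass (app l (ZSO V)) :=
  completely_solvable V hV l

end Pool.Agent.Results.MP_152bd8_lc.CompletelySolvable
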